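import Pool.Agent.W622.ETG.Lin

set_option autoImplicit false
set_option linter.unusedSectionVars false

/-!
Case (2): `n = dim P + 4`, `n ≥ 7`, a bad block of dimension 2.
-/

namespace Pool.Agent.W638.ELG

open Pool.Agent.W622.ETG Module

section
variable {V : Type} [AddCommGroup V] [Module (ZMod 2) V] [Finite V]

/-- the dimension of a sum is at most the sum of the dimensions -/
theorem finrank_sSup_le (N : Finset (DSub V)) :
    finrank (ZMod 2) (sSup (N : Set (DSub V)) : DSub V) ≤ ∑ F ∈ N, finrank (ZMod 2) F := by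
  classical
  induction N using Finset.induction_on with
  | empty =>
    rw [Finset.coe_empty, sSup_empty]
    simp
  | insert a N ha ih =>
    rw [Finset.coe_insert, sSup_insert, Finset.sum_insert ha]
    exact (Submodule.finrank_add_le_finrank_add_finrank _ _).trans (by omega)

theorem ne_top_of_sum_lt (N : Finset (DSub V))
    (h : ∑ F ∈ N, finrank (ZMod 2) F < finrank (ZMod 2) V) :
    sSup (N : Set (DSub V)) ≠ (⊤ : DSub V) := by
  intro htop
  have h1 := finrank_sSup_le N
  rw [htop, finrank_top, finrank_Dl] at h1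
  omega

/-- bad blocks not spanning are independent with the good part: dimensions -/
theorem dim_bad (hFIND : S_FIND) {e : V} {A : Fam V} (hA : FW e A) (N : Finset (DSub V))
    (hN : (N : Set (DSub V)) ⊆ BB e A) (hne : sSup (N : Set (DSub V)) ≠ (⊤ : DSub V)) :
    finrank (ZMod 2) (PP e A) + ∑ F ∈ N, finrank (ZMod 2) F ≤ finrank (ZMod 2) V := by
  classical
  have hind := hFIND V e A N hA hN hne
  set G : Finset (DSub V) := (Set.toFinite (GB e A)).toFinset with hG
  have hGc : (G : Set (DSub V)) = GB e A := by rw [hG, Set.Finite.coe_toFinset]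
  have hdis : Disjoint G N := by
    rw [Finset.disjoint_left]
    intro X hX hX'
    have h1 : X ∈ GB e A := by rw [← hGc]; exact hX
    exact (hN hX').2 h1.2
  have h1 : sSupIndep ((G ∪ N : Finset (DSub V)) : Set (DSub V)) := by
    rw [Finset.coe_union, hGc]
    exact hind
  have h2 := idim (G ∪ N) h1
  have h3 : sSupIndep (G : Set (DSub V)) := by
    rw [hGc]
    exact hind.mono Set.subset_union_left
  have h4 := idim G h3
  have h5 : PP e A = sSup (G : Set (DSub V)) := by rw [hGc]; rfl
  rw [Finset.sum_union hdis] at h2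
  have h6 := Submodule.finrank_le (sSup ((G ∪ N : Finset (DSub V)) : Set (DSub V)) : DSub V)
  rw [finrank_Dl] at h6
  rw [h5, h4, ← h2]
  exact h6

end

theorem t_C2 (hFIND : S_FIND) (hF5 : S_F5) (hBEV : S_BEV) (hBNT : S_BNT) :
    S_C2 := by
  intro V _ _ _ e A hA hn h7 hB
  classical
  obtain ⟨B, hB, hB2⟩ := hB
  have hev : ∀ F ∈ BB e A, 2 ≤ finrank (ZMod 2) F := fun F hF => (hBEV V e A hA.mc F hF).2
  have key : ∀ N : Finset (DSub V), (N : Set (DSub V)) ⊆ BB e A →
      sSup (N : Set (DSub V)) ≠ (⊤ : DSub V) → ∑ F ∈ N, finrank (ZMod 2) F ≤ 4 := by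
    intro N h1 h2
    have := dim_bad hFIND hA N h1 h2
    omega
  have h4 : ∀ F ∈ BB e A, finrank (ZMod 2) F ≤ 4 := by
    intro F hF
    have := key {F} (by simpa using hF) (by
      rw [Finset.coe_singleton, sSup_singleton]
      exact (hBNT V e A F hA.mc hF.1).1)
    simpa using this
  have h2 : ∀ F ∈ BB e A, finrank (ZMod 2) F = 2 := by
    intro F hF
    by_cases hFB : F = B
    · rw [hFB]; exact hB2
    · have h5 := h4 F hF
      have h6 : ∑ F' ∈ ({B, F} : Finset (DSub V)), finrank (ZMod 2) F' =
          finrank (ZMod 2) B + finrank (ZMod 2) F := by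
        rw [Finset.sum_pair (fun h => hFB h.symm)]
      have h7' := key {B, F} (by
        intro X hX
        simp only [Finset.coe_insert, Finset.coe_singleton, Set.mem_insert_iff,
          Set.mem_singleton_iff] at hX
        rcases hX with rfl | rfl
        · exact hB
        · exact hF) (ne_top_of_sum_lt _ (by rw [h6]; omega))
      rw [h6] at h7'
      have := hev F hF
      omega
  set N : Finset (DSub V) := (Set.toFinite (BB e A)).toFinset with hN
  have hNc : (N : Set (DSub V)) = BB e A := by rw [hN, Set.Finite.coe_toFinset]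
  have hsum : ∀ N' ⊆ N, ∑ F ∈ N', finrank (ZMod 2) F = N'.card * 2 := by
    intro N' hN'
    rw [Finset.sum_const_nat]
    intro F hF
    apply h2
    rw [← hNc]
    exact hN' hF
  rcases Nat.lt_or_ge N.card 3 with hlt | hge
  · have h8 := ne_top_of_sum_lt N (by rw [hsum N (Finset.Subset.refl _)]; omega)
    rw [hNc] at h8
    exact h8 (hF5 V e A hA)
  · obtain ⟨N', hN', hcard⟩ := Finset.exists_subset_card_eq hge
    have h8 := key N' (by
      rw [← hNc]
      exact_mod_cast hN') (ne_top_of_sum_lt _ (by rw [hsum N' hN', hcard]; omega))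
    rw [hsum N' hN', hcard] at h8
    omega

end Pool.Agent.W638.ELG
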